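import Pool.Agent.Helper683.Lk.Defs

set_option autoImplicit false

/-!
# Project DG: intrinsically n-linked directed graphs for all n (MP_4fe900_gt), statements of the jobs (helper87)

THEOREM.  For every `n` there is a digraph (the symmetric complete digraph on `N` vertices, `N ≥ c n`) such that every spatial embedding contains
`n` pairwise vertex-disjoint consistently oriented cycles (of length 2 or 3) whose images form a nonsplit link: one of them has odd linking number
with all the others.  PROOF.  If no short directed cycle `C` has odd linking number with `n` disjoint short directed cycles, there is for each short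
`C` a set `H(C)` of at most `3 n` vertices which meets all short directed cycles `Z` that are disjoint from `C` and have odd linking number with `C`.
By counting (FREE) there are six vertices such that no one of them is in `H(C)` for a short cycle `C` through the other ones; so all pairs of disjoint
short directed cycles on these six vertices have even linking number.  Choose one arc for each of the 15 pairs: modulo 2 an undirected triangle is the
sum of a directed triangle and of directed 2-cycles, so all pairs of complementary triangles of this `K_6` have even linking number, against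
Conway-Gordon-Sachs (`k6_poly`, starting file `Helper683/Lk/K6P.lean`).
Nonsplit: an embedded 2-sphere (any continuous injective map of the sphere) cannot separate two curves with a nonzero linking number: TOPO, CRS, FAC.
-/

namespace Pool.Agent.J4H87.DG

open Pool.Agent.Helper683.Lk
open Complex Set

/-- TOPO. PROOF. `S = range f` is compact, `f` is a homeomorphism onto `S`. (1) every continuous nonvanishing `g : sphere → ℂ` has a continuous
logarithm: on each closed hemisphere `(x, y) ↦ g (x, y, ± √(1 - x² - y²))` composed with the radial projection of the plane to the closed disc has a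
continuous logarithm on the plane (Mathlib: `Complex.exists_continuousOn_eqOn_exp_comp` for simply connected open sets; `BezHen/Topo.lean` exists_log);
on the equator (connected) the two logarithms differ by a constant `2 π i k`; glue.  (2) Tietze: the logarithm of `Θ ∘ f`, carried over to `S`, extends to
a continuous `G : R3 → ℂ`.  (3) `Θ' = 1` on `B ∪ S`, `Θ' = Θ exp (-G)` on `U ∪ S` is continuous (two closed sets, it is `1` on `S`) and nonvanishing,
so `Θ' = exp H` with a continuous `H : R3 → ℂ`.  `K = G + H`. -/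
def S_TOPO : Prop := ∀ f : Metric.sphere (0 : R3) 1 → R3, Continuous f → Function.Injective f →
  ∀ B U : Set R3, IsOpen B → IsOpen U → Disjoint B U → B ∪ U = (range f)ᶜ →
  ∀ Θ : R3 → ℂ, Continuous Θ → (∀ x, x ∉ B → Θ x ≠ 0) →
  ∃ K : R3 → ℂ, Continuous K ∧ ∀ x ∈ U, exp (K x) = Θ x

/-- the segments `a b` and `c d` are in general position for the projection along `v` (same as `RegPair` in `Helper683/Lk/Cross.lean`; that file has
a heavy import, do not import it: copy `r3_ext`, `dep_of_det3`, `seg_mem`, `mem_seg`, `det_ne` from it if you need them) -/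
def RP (v a b c d : R3) : Prop :=
  (∀ y ∈ segment ℝ c d, ∀ h : ℝ, a ≠ y + h • v ∧ b ≠ y + h • v) ∧
  (∀ x ∈ segment ℝ a b, ∀ h : ℝ, c ≠ x + h • v ∧ d ≠ x + h • v)

/-- the scalar product -/
def dot (x y : R3) : ℝ := x 0 * y 0 + x 1 * y 1 + x 2 * y 2

/-- `D + i N` for the vectors `a - x`, `b - x`, `v`; its argument is half of the solid angle of the spherical triangle with these three directions -/
noncomputable def FF (v a b x : R3) : ℂ :=
  ((‖a - x‖ * ‖b - x‖ * ‖v‖ + dot (a - x) (b - x) * ‖v‖ + dot (b - x) v * ‖a - x‖ + dot (a - x) v * ‖b - x‖ : ℝ) : ℂ) +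
    ((det3 (a - x) (b - x) v : ℝ) : ℂ) * I

/-- FAC. PROOF. For `a : R3` let `M a = !![‖a‖ + a 2, a 0 - a 1 * I; a 0 + a 1 * I, ‖a‖ - a 2]` (2×2, `det = 0`); `tr (M a * M b * M c)` is twice the
number `FF` of the vectors `a, b, c`, `tr (M a * M b) = 2 (‖a‖ ‖b‖ + dot a b)`, positive unless `a, b` have opposite directions or one of them is zero.
`Θ x = tr (M (p 0 - x) * ⋯ * M (p (m-1) - x))` (`1` for `m = 0`).  For 2×2 matrices with `det A = 0`: `A * X * A = tr (X * A) • A`.  So with
`R k = M (p 0 - x) * ⋯ * M (p k - x)`, `τ i = tr (M (p i - x) * M v)`: `tr (R (k+1) * M v) * τ k = tr (R k * M v) * 2 FF v (p k) (p (k+1)) x` and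
`tr (R m * M v) = Θ x * τ 0`, hence `Θ x * ∏_{i<m} τ i = ∏_{i<m} 2 FF v (p i) (p (i+1)) x`.  `Θ x ≠ 0`: `R m = Θ x • M (p 0 - x)`, and `R m ≠ 0` since
`R m * (R m)ᴴ = c • M (p 0 - x)` with `c ≠ 0` (`M a * M a = 2 ‖a‖ • M a`, `M a * M b * M a = tr (M b * M a) • M a`). -/
def S_FAC : Prop := ∀ (m : ℕ) (p : ℕ → R3), p m = p 0 →
  ∃ Θ : R3 → ℂ, Continuous Θ ∧ (∀ x, (∀ i < m, x ∉ segment ℝ (p i) (p (i + 1))) → Θ x ≠ 0) ∧
    ∀ v x : R3, v ≠ 0 → (∀ i < m, ∀ h : ℝ, p i ≠ x + h • v) →
      ∃ r : ℝ, 0 < r ∧ ∏ i ∈ Finset.range m, FF v (p i) (p (i + 1)) x = (r : ℂ) * Θ x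

/-- CRS. PROOF. `x t = c + t (d - c)`. `N t = det3 (a - x t) (b - x t) v` is affine in `t` with slope `det3 (b - a) (d - c) v = - det3 (d - c) (b - a) v`.
With `A = ‖a - x‖ ‖v‖`, `α = dot (a - x) v`, `W² = A² - α²`, the same with `B, β, W'` for `b`: `A + α > 0`, `B + β > 0` by regularity, and if `N = 0` then
the components `w, w'` of `a - x, b - x` orthogonal to `v` are parallel and `‖v‖ D = (A + α)(B + β) + ‖v‖² w·w'`. If `w·w' > 0` then `D > 0`; if
`w·w' < 0`: `D < 0 ↔ (A+α)(B+β) < W W' ↔ (A+α)(B+β) < (A-α)(B-β) ↔ α B + β A < 0 ↔ α W' + β W < 0 ↔` some point of the segment `a b` is `x - h v`, `h > 0`.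
So `FF` is a negative real number exactly at the points `x t` above the segment `a b`.  If there is none, `θ = arg (FF ..)`, and `crossSign = 0`.
Otherwise `det_ne` (Cross.lean): there is one, `0 < t₀ < 1`, `N` changes its sign there, and `θ t = arg (-FF ..) ∓ π` (`-` if the slope of `N` is
positive; `FF` is never a positive real number then). -/
def S_CRS : Prop := ∀ v a b c d : R3, v ≠ 0 → RP v c d a b → Disjoint (segment ℝ c d) (segment ℝ a b) →
  ∃ θ : ℝ → ℝ, ContinuousOn θ (Icc 0 1) ∧
    (∀ t ∈ Icc (0 : ℝ) 1, FF v a b (c + t • (d - c)) ≠ 0 ∧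
      FF v a b (c + t • (d - c)) = (‖FF v a b (c + t • (d - c))‖ : ℂ) * exp (θ t * I)) ∧
    θ 0 = arg (FF v a b c) ∧ θ 1 = arg (FF v a b d) + 2 * Real.pi * (crossSign v c d a b : ℝ)

/-- FREE. PROOF. Count the maps `x : Fin 6 → V`: those with `x i = x j` for a pair `i ≠ j` are at most `30 |V|^5`, those with `x k ∈ H2 (x i) (x j)`
for given `i, j, k`, `k ≠ i, j`, at most `h |V|^5` (choose the other five values first), those with `x k ∈ H3 (x i) (x j) (x l)` the same. -/
def S_FREE : Prop := ∀ (V : Type) [Fintype V] [DecidableEq V] (h : ℕ) (H2 : V → V → Finset V) (H3 : V → V → V → Finset V),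
  (∀ a b, (H2 a b).card ≤ h) → (∀ a b c, (H3 a b c).card ≤ h) → 30 + 1512 * h < Fintype.card V →
  ∃ x : Fin 6 → V, Function.Injective x ∧ (∀ i j k, k ≠ i → k ≠ j → x k ∉ H2 (x i) (x j)) ∧
    ∀ i j l k, k ≠ i → k ≠ j → k ≠ l → x k ∉ H3 (x i) (x j) (x l)

end Pool.Agent.J4H87.DG
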