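import Pool.Agent.J4H87.DG.Cyc
import Pool.Agent.J4H87.DG.Stm

set_option autoImplicit false

namespace Pool.Agent.J4H87.DG

open Set
open Pool.Agent.Helper683.Lk hiding I

theorem pack {V : Type} (F : Finset V → Prop) (k : ℕ) (hF : ∀ A, F A → A.card ≤ k) (n : ℕ) :
    (∃ A : Fin n → Finset V, (∀ i, F (A i)) ∧ ∀ i j, i ≠ j → Disjoint (A i) (A j)) ∨
    ∃ H : Finset V, H.card ≤ k * n ∧ ∀ A, F A → ¬ Disjoint A H := by
  classical
  induction n with
  | zero => exact Or.inl ⟨fun i => i.elim0, fun i => i.elim0, fun i => i.elim0⟩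
  | succ n ih =>
    rcases ih with ⟨A, hA, hd⟩ | ⟨H, hc, hH⟩
    · by_cases hm : ∀ B, F B → ¬ Disjoint B (Finset.univ.biUnion A)
      · refine Or.inr ⟨Finset.univ.biUnion A, ?_, hm⟩
        calc (Finset.univ.biUnion A).card ≤ ∑ i, (A i).card := Finset.card_biUnion_le
          _ ≤ ∑ _i : Fin n, k := Finset.sum_le_sum fun i _ => hF _ (hA i)
          _ = k * n := by simp [mul_comm]
          _ ≤ k * (n + 1) := Nat.mul_le_mul_left k (Nat.le_succ n)
      · push Not at hm
        obtain ⟨B, hB, hBd⟩ := hm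
        rw [Finset.disjoint_biUnion_right] at hBd
        refine Or.inl ⟨Fin.cons B A, ?_, ?_⟩
        · intro i
          refine Fin.cases ?_ (fun i => ?_) i
          · simpa using hB
          · simpa using hA i
        · intro i j
          refine Fin.cases ?_ (fun i => ?_) i <;> refine Fin.cases ?_ (fun j => ?_) j
          · intro h; exact absurd rfl h
          · intro _; simpa using hBd j (Finset.mem_univ j)
          · intro _; simpa using (hBd i (Finset.mem_univ i)).symm
          · intro h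
            simpa using hd i j fun e => h (by rw [e])
    · exact Or.inr ⟨H, hc.trans (Nat.mul_le_mul_left k (Nat.le_succ n)), hH⟩

variable {N : ℕ}

/-- the cycle of length two -/
def dg {a b : Fin N} (h : a ≠ b) : DiCycle (sym N) where
  len := 1
  edge := ![ed h, ed h.symm]
  next := by intro i; fin_cases i <;> rfl
  inj := by
    intro i j hij
    fin_cases i <;> fin_cases j
    · rfl
    · exact absurd hij h
    · exact absurd hij h.symm
    · rfl

/-- the cycle of length three -/
def tr {a b c : Fin N} (h : a ≠ b) (h' : b ≠ c) (h'' : c ≠ a) : DiCycle (sym N) where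
  len := 2
  edge := ![ed h, ed h', ed h'']
  next := by intro i; fin_cases i <;> rfl
  inj := by
    intro i j hij
    fin_cases i <;> fin_cases j
    · rfl
    · exact absurd hij h
    · exact absurd hij h''.symm
    · exact absurd hij h.symm
    · rfl
    · exact absurd hij h'
    · exact absurd hij h''
    · exact absurd hij h'.symm
    · rfl

variable (S : SpatialEmbedding (sym N)) (M : ℕ) (v : R3)

theorem LD_dd {a b y z : Fin N} (h : a ≠ b) (k : y ≠ z) : LD S M v (dg h) (dg k) =
    XX S M v a b y z + XX S M v a b z y + (XX S M v b a y z + XX S M v b a z y) := by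
  unfold LD
  show ∑ i : Fin 2, ∑ j : Fin 2, _ = _
  rw [Fin.sum_univ_two, Fin.sum_univ_two, Fin.sum_univ_two]
  rfl

theorem LD_dt {a b y z w : Fin N} (h : a ≠ b) (k : y ≠ z) (k' : z ≠ w) (k'' : w ≠ y) : LD S M v (dg h) (tr k k' k'') =
    XX S M v a b y z + XX S M v a b z w + XX S M v a b w y + (XX S M v b a y z + XX S M v b a z w + XX S M v b a w y) := by
  unfold LD
  show ∑ i : Fin 2, ∑ j : Fin 3, _ = _
  rw [Fin.sum_univ_two, Fin.sum_univ_three, Fin.sum_univ_three]
  rfl

theorem LD_td {a b c y z : Fin N} (h : a ≠ b) (h' : b ≠ c) (h'' : c ≠ a) (k : y ≠ z) : LD S M v (tr h h' h'') (dg k) =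
    XX S M v a b y z + XX S M v a b z y + (XX S M v b c y z + XX S M v b c z y) + (XX S M v c a y z + XX S M v c a z y) := by
  unfold LD
  show ∑ i : Fin 3, ∑ j : Fin 2, _ = _
  rw [Fin.sum_univ_three, Fin.sum_univ_two, Fin.sum_univ_two, Fin.sum_univ_two]
  rfl

theorem LD_tt {a b c y z w : Fin N} (h : a ≠ b) (h' : b ≠ c) (h'' : c ≠ a) (k : y ≠ z) (k' : z ≠ w) (k'' : w ≠ y) :
    LD S M v (tr h h' h'') (tr k k' k'') =
    XX S M v a b y z + XX S M v a b z w + XX S M v a b w y + (XX S M v b c y z + XX S M v b c z w + XX S M v b c w y) +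
    (XX S M v c a y z + XX S M v c a z w + XX S M v c a w y) := by
  unfold LD
  show ∑ i : Fin 3, ∑ j : Fin 3, _ = _
  rw [Fin.sum_univ_three, Fin.sum_univ_three, Fin.sum_univ_three, Fin.sum_univ_three]
  rfl

/-- the set of the vertices of a cycle -/
noncomputable def vs (C : DiCycle (sym N)) : Finset (Fin N) :=
  (Finset.univ : Finset (Fin (C.len + 1))).image (fun i => ((sym N).src (C.edge i) : Fin N))

theorem vs_card (C : DiCycle (sym N)) : (vs C).card ≤ C.len + 1 := by
  refine Finset.card_image_le.trans ?_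
  simp

theorem vs_disj {C Z : DiCycle (sym N)} (h : Disjoint (vs C) (vs Z)) : VertexDisjoint C Z := by
  intro i j hij
  refine Finset.disjoint_left.1 h (Finset.mem_image_of_mem _ (Finset.mem_univ i)) ?_
  rw [hij]
  exact Finset.mem_image_of_mem _ (Finset.mem_univ j)

variable {S M v}

theorem hit {n : ℕ} (hno : ¬ ∃ (C : DiCycle (sym N)) (Z : Fin n → DiCycle (sym N)), (∀ i, VertexDisjoint C (Z i)) ∧
      (∀ i j, i ≠ j → VertexDisjoint (Z i) (Z j)) ∧ ∀ i, LD S M v C (Z i) ≠ 0) (C : DiCycle (sym N)) :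
    ∃ H : Finset (Fin N), H.card ≤ 3 * n ∧ ∀ Z : DiCycle (sym N), Z.len ≤ 2 → VertexDisjoint C Z →
      ((LD S M v C Z : ℤ) : ZMod 2) ≠ 0 → ∃ j, ((sym N).src (Z.edge j) : Fin N) ∈ H := by
  rcases pack (fun A : Finset (Fin N) => ∃ Z : DiCycle (sym N), Z.len ≤ 2 ∧ VertexDisjoint C Z ∧
      ((LD S M v C Z : ℤ) : ZMod 2) ≠ 0 ∧ vs Z = A) 3 (by
        rintro A ⟨Z, h1, _, _, rfl⟩
        exact (vs_card Z).trans (by omega)) n with ⟨A, hA, hd⟩ | ⟨H, hc, hH⟩
  · exfalso
    choose Z hZ1 hZ2 hZ3 hZ4 using hA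
    refine hno ⟨C, Z, hZ2, ?_, ?_⟩
    · intro i j hij
      refine vs_disj ?_
      rw [hZ4, hZ4]
      exact hd i j hij
    · intro i h0
      apply hZ3 i
      rw [h0]
      simp
  · refine ⟨H, hc, fun Z h1 h2 h3 => ?_⟩
    have := hH (vs Z) ⟨Z, h1, h2, h3, rfl⟩
    rw [Finset.not_disjoint_iff] at this
    obtain ⟨w, hw, hwH⟩ := this
    obtain ⟨j, _, rfl⟩ := Finset.mem_image.1 hw
    exact ⟨j, hwH⟩

theorem star (hFREE : S_FREE) {ρ : ℝ} (hL : Lev S ρ M v) {n : ℕ} (hN : 30 + 1512 * (3 * n) < N) :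
    ∃ (C : DiCycle (sym N)) (Z : Fin n → DiCycle (sym N)), (∀ i, VertexDisjoint C (Z i)) ∧
      (∀ i j, i ≠ j → VertexDisjoint (Z i) (Z j)) ∧ ∀ i, LD S M v C (Z i) ≠ 0 := by
  classical
  by_contra hno
  choose H hHc hH using hit hno
  set H2 : Fin N → Fin N → Finset (Fin N) := fun a b => if h : a ≠ b then H (dg h) else ∅ with hH2
  set H3 : Fin N → Fin N → Fin N → Finset (Fin N) := fun a b c =>
    if h : a ≠ b ∧ b ≠ c ∧ c ≠ a then H (tr h.1 h.2.1 h.2.2) else ∅ with hH3
  obtain ⟨x, hx, hx2, hx3⟩ := hFREE (Fin N) (3 * n) H2 H3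
    (by
      intro a b
      simp only [hH2]
      split_ifs
      · exact hHc _
      · simp)
    (by
      intro a b c
      simp only [hH3]
      split_ifs
      · exact hHc _
      · simp) (by simpa using hN)
  have e2 : ∀ i j : Fin 6, ∀ h : x i ≠ x j, H2 (x i) (x j) = H (dg h) := by
    intro i j h
    simp only [hH2]
    rw [dif_pos h]
  have e3 : ∀ i j k : Fin 6, ∀ (h : x i ≠ x j) (h' : x j ≠ x k) (h'' : x k ≠ x i),
      H3 (x i) (x j) (x k) = H (tr h h' h'') := by
    intro i j k h h' h''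
    simp only [hH3]
    rw [dif_pos ⟨h, h', h''⟩]
  have blk : ∀ a b c y z w : Fin 6, [a, b, c, y, z, w].Nodup →
      ((XX S M v (x a) (x b) (x y) (x z) : ℤ) : ZMod 2) + ((XX S M v (x a) (x b) (x z) (x w) : ℤ) : ZMod 2) +
      ((XX S M v (x a) (x b) (x y) (x w) : ℤ) : ZMod 2) + ((XX S M v (x b) (x c) (x y) (x z) : ℤ) : ZMod 2) +
      ((XX S M v (x b) (x c) (x z) (x w) : ℤ) : ZMod 2) + ((XX S M v (x b) (x c) (x y) (x w) : ℤ) : ZMod 2) +
      ((XX S M v (x a) (x c) (x y) (x z) : ℤ) : ZMod 2) + ((XX S M v (x a) (x c) (x z) (x w) : ℤ) : ZMod 2) +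
      ((XX S M v (x a) (x c) (x y) (x w) : ℤ) : ZMod 2) = 0 := by
    intro a b c y z w hnd
    simp only [List.nodup_cons, List.mem_cons, List.not_mem_nil, or_false, not_or, List.nodup_nil, not_false_eq_true,
      and_true] at hnd
    obtain ⟨⟨ab, ac, ay, az, aw⟩, ⟨bc, by_, bz, bw⟩, ⟨cy, cz, cw⟩, ⟨yz, yw⟩, zw⟩ := hnd
    have two0 : (2 : ZMod 2) = 0 := by decide
    have xab := hx.ne ab
    have xac := hx.ne ac
    have xbc := hx.ne bc
    have xyz := hx.ne yz
    have xyw := hx.ne yw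
    have xzw := hx.ne zw
    have hay := hx.ne ay
    have haz := hx.ne az
    have haw := hx.ne aw
    have hby := hx.ne by_
    have hbz := hx.ne bz
    have hbw := hx.ne bw
    have hcy := hx.ne cy
    have hcz := hx.ne cz
    have hcw := hx.ne cw
    have d2 : ∀ k, k ≠ a → k ≠ c → x k ∉ H (dg xac) := by
      intro k h1 h2
      rw [← e2]
      exact hx2 a c k h1 h2
    have d3 : ∀ k, k ≠ a → k ≠ b → k ≠ c → x k ∉ H (tr xab xbc xac.symm) := by
      intro k h1 h2 h3
      rw [← e3]
      exact hx3 a b c k h1 h2 h3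
    -- directed triangle and directed triangle
    have g1 : ((LD S M v (tr xab xbc xac.symm) (tr xyz xzw xyw.symm) : ℤ) : ZMod 2) = 0 := by
      by_contra hne
      obtain ⟨j, hj⟩ := hH _ _ (by exact le_rfl) (by
        intro i j
        fin_cases i <;> fin_cases j
        · exact hay
        · exact haz
        · exact haw
        · exact hby
        · exact hbz
        · exact hbw
        · exact hcy
        · exact hcz
        · exact hcw) hne
      fin_cases j
      · exact d3 y (Ne.symm ay) (Ne.symm by_) (Ne.symm cy) hj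
      · exact d3 z (Ne.symm az) (Ne.symm bz) (Ne.symm cz) hj
      · exact d3 w (Ne.symm aw) (Ne.symm bw) (Ne.symm cw) hj
    have g2 : ((LD S M v (tr xab xbc xac.symm) (dg xyw) : ℤ) : ZMod 2) = 0 := by
      by_contra hne
      obtain ⟨j, hj⟩ := hH _ _ (by exact Nat.le_succ 1) (by
        intro i j
        fin_cases i <;> fin_cases j
        · exact hay
        · exact haw
        · exact hby
        · exact hbw
        · exact hcy
        · exact hcw) hne
      fin_cases j
      · exact d3 y (Ne.symm ay) (Ne.symm by_) (Ne.symm cy) hj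
      · exact d3 w (Ne.symm aw) (Ne.symm bw) (Ne.symm cw) hj
    have g3 : ((LD S M v (dg xac) (tr xyz xzw xyw.symm) : ℤ) : ZMod 2) = 0 := by
      by_contra hne
      obtain ⟨j, hj⟩ := hH _ _ (by exact le_rfl) (by
        intro i j
        fin_cases i <;> fin_cases j
        · exact hay
        · exact haz
        · exact haw
        · exact hcy
        · exact hcz
        · exact hcw) hne
      fin_cases j
      · exact d2 y (Ne.symm ay) (Ne.symm cy) hj
      · exact d2 z (Ne.symm az) (Ne.symm cz) hj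
      · exact d2 w (Ne.symm aw) (Ne.symm cw) hj
    have g4 : ((LD S M v (dg xac) (dg xyw) : ℤ) : ZMod 2) = 0 := by
      by_contra hne
      obtain ⟨j, hj⟩ := hH _ _ (by exact Nat.le_succ 1) (by
        intro i j
        fin_cases i <;> fin_cases j
        · exact hay
        · exact haw
        · exact hcy
        · exact hcw) hne
      fin_cases j
      · exact d2 y (Ne.symm ay) (Ne.symm cy) hj
      · exact d2 w (Ne.symm aw) (Ne.symm cw) hj
    rw [LD_tt] at g1
    rw [LD_td] at g2
    rw [LD_dt] at g3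
    rw [LD_dd] at g4
    push_cast at g1 g2 g3 g4
    linear_combination g1 + g2 + g3 + g4 - (((XX S M v (x a) (x b) (x w) (x y) : ℤ) : ZMod 2) +
      ((XX S M v (x b) (x c) (x w) (x y) : ℤ) : ZMod 2) + ((XX S M v (x a) (x c) (x w) (x y) : ℤ) : ZMod 2) +
      ((XX S M v (x c) (x a) (x y) (x z) : ℤ) : ZMod 2) + ((XX S M v (x c) (x a) (x z) (x w) : ℤ) : ZMod 2) +
      ((XX S M v (x c) (x a) (x y) (x w) : ℤ) : ZMod 2) + 2 * ((XX S M v (x c) (x a) (x w) (x y) : ℤ) : ZMod 2)) * two0
  have hk := k6_lev hL x hx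
  unfold ten at hk
  simp only at hk
  rw [blk 0 1 2 3 4 5 (by decide), blk 0 1 3 2 4 5 (by decide), blk 0 1 4 2 3 5 (by decide), blk 0 1 5 2 3 4 (by decide),
    blk 0 2 3 1 4 5 (by decide), blk 0 2 4 1 3 5 (by decide), blk 0 2 5 1 3 4 (by decide), blk 0 3 4 1 2 5 (by decide),
    blk 0 3 5 1 2 4 (by decide), blk 0 4 5 1 2 3 (by decide)] at hk
  exact absurd hk (by decide)

end Pool.Agent.J4H87.DG
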