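import Pool.Agent.J4H87.DG.Geo

set_option autoImplicit false

namespace Pool.Agent.J4H87.DG

open Set Filter Topology
open Pool.Agent.Helper683.Lk

variable {N : ℕ}

/-- the `q`-th vertex of a cycle -/
def sc (C : DiCycle (sym N)) (q : ℕ) : Fin N := (sym N).src (C.edge (Fin.ofNat (C.len + 1) q))
def tg (C : DiCycle (sym N)) (q : ℕ) : Fin N := (sym N).tgt (C.edge (Fin.ofNat (C.len + 1) q))

theorem ofNat_succ (n q : ℕ) : Fin.ofNat (n + 1) q + 1 = Fin.ofNat (n + 1) (q + 1) := by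
  apply Fin.ext
  simp [Fin.ofNat, Fin.val_add, Nat.add_mod]

theorem tg_eq (C : DiCycle (sym N)) (q : ℕ) : tg C q = sc C (q + 1) := by
  unfold tg sc
  rw [C.next, ofNat_succ]

theorem sc_ne_tg (C : DiCycle (sym N)) (q : ℕ) : sc C q ≠ tg C q := (sym N).loopless _

theorem sc_last (C : DiCycle (sym N)) : sc C (C.len + 1) = sc C 0 := by
  unfold sc
  congr 2
  apply Fin.ext
  simp [Fin.ofNat]

variable (S : SpatialEmbedding (sym N))

/-- the closed polygon of a cycle -/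
noncomputable def cp (C : DiCycle (sym N)) (M : ℕ) (i : ℕ) : R3 := pg S M (sc C (i / M)) (tg C (i / M)) (i % M)

theorem cp_eq (C : DiCycle (sym N)) {M : ℕ} (hM : 0 < M) (q r : ℕ) (hr : r ≤ M) :
    cp S C M (q * M + r) = pg S M (sc C q) (tg C q) r := by
  rcases hr.lt_or_eq with h | rfl
  · unfold cp
    have e1 : (q * M + r) / M = q := by
      rw [mul_comm, Nat.mul_add_div hM, Nat.div_eq_of_lt h, add_zero]
    have e2 : (q * M + r) % M = r := by
      rw [mul_comm, Nat.mul_add_mod, Nat.mod_eq_of_lt h]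
    rw [e1, e2]
  · unfold cp
    have e0 : q * r + r = (q + 1) * r := by ring
    rw [e0, Nat.mul_div_cancel _ hM, Nat.mul_mod_left, pg_zero S (sc_ne_tg C _), pg_last S (sc_ne_tg C _) hM, tg_eq]

theorem cp_last (C : DiCycle (sym N)) {M : ℕ} (hM : 0 < M) : cp S C M ((C.len + 1) * M) = cp S C M 0 := by
  have h1 := cp_eq S C hM (C.len + 1) 0 (Nat.zero_le _)
  have h2 := cp_eq S C hM 0 0 (Nat.zero_le _)
  rw [add_zero, pg_zero S (sc_ne_tg C _)] at h1
  rw [zero_mul, add_zero, pg_zero S (sc_ne_tg C _)] at h2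
  rw [h1, h2, sc_last]

theorem cp_sum (C : DiCycle (sym N)) {M : ℕ} (hM : 0 < M) (F : R3 → R3 → ℤ) (k : ℕ) :
    ∑ i ∈ Finset.range (k * M), F (cp S C M i) (cp S C M (i + 1)) =
      ∑ q ∈ Finset.range k, ∑ r ∈ Finset.range M, F (pg S M (sc C q) (tg C q) r) (pg S M (sc C q) (tg C q) (r + 1)) := by
  induction k with
  | zero => simp
  | succ k ih =>
    rw [Finset.sum_range_succ, ← ih]
    have e : (k + 1) * M = k * M + M := by ring
    rw [e, Finset.sum_range_add]
    congr 1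
    refine Finset.sum_congr rfl fun r hr => ?_
    have hr' := Finset.mem_range.1 hr
    rw [cp_eq S C hM k r hr'.le]
    have e2 : k * M + r + 1 = k * M + (r + 1) := by ring
    rw [e2, cp_eq S C hM k (r + 1) hr']

theorem cp_edge (C : DiCycle (sym N)) {M : ℕ} (hM : 0 < M) (i : ℕ) :
    cp S C M i = pg S M (sc C (i / M)) (tg C (i / M)) (i % M) ∧
      cp S C M (i + 1) = pg S M (sc C (i / M)) (tg C (i / M)) (i % M + 1) := by
  refine ⟨rfl, ?_⟩
  have h1 : i % M < M := Nat.mod_lt _ hM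
  have h2 : i + 1 = i / M * M + (i % M + 1) := by
    have := Nat.div_add_mod' i M
    omega
  have h3 := cp_eq S C hM (i / M) (i % M + 1) h1
  rw [← h2] at h3
  exact h3

theorem sep_of {C Z : DiCycle (sym N)} (h : VertexDisjoint C Z) (i : Fin (C.len + 1)) (j : Fin (Z.len + 1)) :
    Sep4 ((sym N).src (C.edge i)) ((sym N).tgt (C.edge i)) ((sym N).src (Z.edge j)) ((sym N).tgt (Z.edge j)) := by
  refine ⟨(sym N).loopless _, (sym N).loopless _, h i j, ?_, ?_, ?_⟩
  · rw [Z.next]; exact h i (j + 1)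
  · rw [C.next]; exact h (i + 1) j
  · rw [C.next, Z.next]; exact h (i + 1) (j + 1)

theorem sep_of' {C Z : DiCycle (sym N)} (h : VertexDisjoint C Z) (p q : ℕ) : Sep4 (sc C p) (tg C p) (sc Z q) (tg Z q) :=
  sep_of h _ _

/-- the crossing sum of two cycles -/
noncomputable def LD (M : ℕ) (v : R3) (C Z : DiCycle (sym N)) : ℤ :=
  ∑ i, ∑ j, XX S M v ((sym N).src (C.edge i)) ((sym N).tgt (C.edge i)) ((sym N).src (Z.edge j)) ((sym N).tgt (Z.edge j))

theorem sum_fin {n : ℕ} (g : Fin (n + 1) → ℤ) : ∑ q ∈ Finset.range (n + 1), g (Fin.ofNat (n + 1) q) = ∑ i, g i := by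
  rw [Finset.sum_range]
  refine Finset.sum_congr rfl fun i _ => ?_
  congr 1
  apply Fin.ext
  simp [Fin.ofNat, Nat.mod_eq_of_lt i.2]

theorem crossSum_cp (C Z : DiCycle (sym N)) {M : ℕ} (hM : 0 < M) (v : R3) :
    crossSum v ((C.len + 1) * M) (cp S C M) ((Z.len + 1) * M) (cp S Z M) = LD S M v C Z := by
  unfold crossSum
  rw [cp_sum S C hM (fun x y => ∑ j ∈ Finset.range ((Z.len + 1) * M), crossSign v x y (cp S Z M j) (cp S Z M (j + 1)))]
  unfold LD
  rw [← sum_fin (fun i => ∑ j, XX S M v ((sym N).src (C.edge i)) ((sym N).tgt (C.edge i)) ((sym N).src (Z.edge j))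
    ((sym N).tgt (Z.edge j)))]
  refine Finset.sum_congr rfl fun q _ => ?_
  rw [← sum_fin (fun j => XX S M v ((sym N).src (C.edge (Fin.ofNat (C.len + 1) q)))
    ((sym N).tgt (C.edge (Fin.ofNat (C.len + 1) q))) ((sym N).src (Z.edge j)) ((sym N).tgt (Z.edge j)))]
  have e1 : ∀ r, ∑ j ∈ Finset.range ((Z.len + 1) * M), crossSign v (pg S M (sc C q) (tg C q) r)
      (pg S M (sc C q) (tg C q) (r + 1)) (cp S Z M j) (cp S Z M (j + 1)) =
      ∑ p ∈ Finset.range (Z.len + 1), ∑ t ∈ Finset.range M, crossSign v (pg S M (sc C q) (tg C q) r)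
      (pg S M (sc C q) (tg C q) (r + 1)) (pg S M (sc Z p) (tg Z p) t) (pg S M (sc Z p) (tg Z p) (t + 1)) := fun r =>
    cp_sum S Z hM (fun x y => crossSign v (pg S M (sc C q) (tg C q) r) (pg S M (sc C q) (tg C q) (r + 1)) x y) _
  rw [Finset.sum_congr rfl fun r _ => e1 r, Finset.sum_comm]
  rfl

variable {S}

theorem reg_cp {ρ : ℝ} {M : ℕ} {v : R3} (hL : Lev S ρ M v) {C Z : DiCycle (sym N)} (h : VertexDisjoint C Z) (i j : ℕ) :
    RegPair v (cp S C M i) (cp S C M (i + 1)) (cp S Z M j) (cp S Z M (j + 1)) := by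
  rw [(cp_edge S C hL.hM i).1, (cp_edge S C hL.hM i).2, (cp_edge S Z hL.hM j).1, (cp_edge S Z hL.hM j).2]
  exact hL.reg _ _ _ _ (sep_of' h _ _) _ (Nat.mod_lt _ hL.hM) _ (Nat.mod_lt _ hL.hM)

theorem dis_cp {ρ : ℝ} {M : ℕ} {v : R3} (hL : Lev S ρ M v) {C Z : DiCycle (sym N)} (h : VertexDisjoint C Z) (i j : ℕ) :
    Disjoint (segment ℝ (cp S C M i) (cp S C M (i + 1))) (segment ℝ (cp S Z M j) (cp S Z M (j + 1))) := by
  rw [(cp_edge S C hL.hM i).1, (cp_edge S C hL.hM i).2, (cp_edge S Z hL.hM j).1, (cp_edge S Z hL.hM j).2]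
  exact seg_dis hL.hM hL.far hL.mod (sep_of' h _ _) _ _

theorem regular_of {v : R3} (hv : v ≠ 0) {m n : ℕ} (hm : 0 < m) (hn : 0 < n) {p q : ℕ → R3}
    (h : ∀ i < m, ∀ j < n, RegPair v (p i) (p (i + 1)) (q j) (q (j + 1))) : Regular v m p n q := by
  refine ⟨hv, ?_, ?_⟩
  · intro i hi j hj y hy t
    rcases hi.lt_or_eq with h1 | h1
    · exact ((h i h1 j hj).1 y hy t).1
    · have := ((h (m - 1) (by omega) j hj).1 y hy t).2
      rwa [show m - 1 + 1 = i by omega] at this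
  · intro j hj i hi x hx t
    rcases hj.lt_or_eq with h1 | h1
    · exact ((h i hi j h1).2 x hx t).1
    · have := ((h i hi (n - 1) (by omega)).2 x hx t).2
      rwa [show n - 1 + 1 = j by omega] at this

theorem cp_scale (C : DiCycle (sym N)) {M c : ℕ} (hM : 0 < M) (hc : 0 < c) (i : ℕ) :
    cp S C (c * M) (c * i) = cp S C M i := by
  unfold cp
  rw [Nat.mul_div_mul_left _ _ hc, Nat.mul_mod_mul_left]
  unfold pg
  congr 1
  have h1 : (c : ℝ) ≠ 0 := by exact_mod_cast hc.ne'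
  have h2 : (M : ℝ) ≠ 0 := by exact_mod_cast hM.ne'
  push_cast
  field_simp

theorem samp_cp {ρ : ℝ} {M : ℕ} {v : R3} (hL : Lev S ρ M v) (C : DiCycle (sym N)) {c : ℕ} (hc : 0 < c) :
    Samp (cp S C (c * M)) ((C.len + 1) * (c * M)) (fun i => c * i) ((C.len + 1) * M) ρ := by
  have hM := hL.hM
  have hcM : 0 < c * M := Nat.mul_pos hc hM
  refine ⟨fun i j hij => Nat.mul_le_mul_left c hij, Nat.mul_zero c, by ring, ?_⟩
  intro i _ j h1 h2
  have hr : i % M < M := Nat.mod_lt _ hM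
  have hi : c * i = i / M * (c * M) + c * (i % M) := by
    conv_lhs => rw [← Nat.div_add_mod' i M]
    ring
  have hj : j = i / M * (c * M) + (j - i / M * (c * M)) := by
    have : i / M * (c * M) ≤ c * i := by rw [hi]; omega
    omega
  set t := j - i / M * (c * M) with ht
  have h1' : c * i ≤ j := h1
  have h2' : j ≤ c * (i + 1) := h2
  have ht1 : c * (i % M) ≤ t := by omega
  have ht2 : t ≤ c * (i % M + 1) := by
    have : c * (i + 1) = i / M * (c * M) + c * (i % M + 1) := by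
      rw [Nat.mul_add, hi]; ring
    omega
  have ht3 : t ≤ c * M := ht2.trans (Nat.mul_le_mul_left c hr)
  have ht4 : c * (i % M) ≤ c * M := Nat.mul_le_mul_left c hr.le
  show dist (cp S C (c * M) j) (cp S C (c * M) (c * i)) < ρ
  rw [hj, hi, cp_eq S C hcM _ _ ht3, cp_eq S C hcM _ _ ht4]
  refine hL.mod _ _ _ _ ?_
  have hc' : (0 : ℝ) < c := by exact_mod_cast hc
  have hM' : (0 : ℝ) < M := by exact_mod_cast hM
  rw [← sub_div, abs_div, abs_of_pos (show (0 : ℝ) < ((c * M : ℕ) : ℝ) by positivity)]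
  have hd : |(t : ℝ) - ((c * (i % M) : ℕ) : ℝ)| ≤ c := by
    rw [abs_le]
    have g1 : ((c * (i % M) : ℕ) : ℝ) ≤ t := by exact_mod_cast ht1
    have g2 : (t : ℝ) ≤ ((c * (i % M + 1) : ℕ) : ℝ) := by exact_mod_cast ht2
    push_cast at g1 g2 ⊢
    constructor <;> linarith
  rw [div_le_div_iff₀ (by positivity) hM', one_mul]
  calc |(t : ℝ) - ((c * (i % M) : ℕ) : ℝ)| * M ≤ c * M := mul_le_mul_of_nonneg_right hd hM'.le
    _ = ((c * M : ℕ) : ℝ) := by push_cast; ring

theorem samp_id {ρ : ℝ} {M : ℕ} {v : R3} (hL : Lev S ρ M v) (C : DiCycle (sym N)) :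
    Samp (cp S C M) ((C.len + 1) * M) (fun i => i) ((C.len + 1) * M) ρ := by
  refine ⟨fun i j hij => hij, rfl, rfl, ?_⟩
  intro i _ j h1 h2
  rw [(cp_edge S C hL.hM i).1]
  rcases h1.lt_or_eq with h | h
  · have : j = i + 1 := by
      have : j ≤ i + 1 := h2
      have : i < j := h
      omega
    rw [this, (cp_edge S C hL.hM i).2]
    exact hL.mod _ _ _ _ (step_le hL.hM _)
  · have h' : i = j := h
    rw [← h', (cp_edge S C hL.hM i).1, dist_self]
    exact hL.hρ

/-- the crossing sum does not depend on the level -/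
theorem inv {ρ : ℝ} {M c : ℕ} {v v' : R3} (hL : Lev S ρ M v) (hc : 0 < c) (hL' : Lev S ρ (c * M) v')
    {C Z : DiCycle (sym N)} (h : VertexDisjoint C Z) : LD S M v C Z = LD S (c * M) v' C Z := by
  have hM := hL.hM
  have hcM := hL'.hM
  have p1 : 0 < (C.len + 1) * M := Nat.mul_pos (Nat.succ_pos _) hM
  have p2 : 0 < (Z.len + 1) * M := Nat.mul_pos (Nat.succ_pos _) hM
  have p1' : 0 < (C.len + 1) * (c * M) := Nat.mul_pos (Nat.succ_pos _) hcM
  have p2' : 0 < (Z.len + 1) * (c * M) := Nat.mul_pos (Nat.succ_pos _) hcM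
  have key := crossSum_inv (a := cp S C (c * M)) (b := cp S Z (c * M)) (K := (C.len + 1) * (c * M))
    (L := (Z.len + 1) * (c * M)) (ρ := ρ) (cp_last S C hcM) (cp_last S Z hcM)
    (fun i _ j _ => hL.far _ _ _ _ (sep_of' h _ _) _ _)
    (fun i _ => by
      rw [(cp_edge S C hcM i).1, (cp_edge S C hcM i).2]
      exact hL'.mod _ _ _ _ (step_le hcM _)) hL.hρ
    (samp_cp hL C hc) (samp_cp hL Z hc) (samp_id hL' C) (samp_id hL' Z) (v := v) (v' := v')
    (by
      refine regular_of hL.hv p1 p2 ?_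
      intro i _ j _
      rw [cp_scale C hM hc, cp_scale C hM hc, cp_scale Z hM hc, cp_scale Z hM hc]
      exact reg_cp hL h i j)
    (by
      refine regular_of hL'.hv p1' p2' ?_
      intro i _ j _
      exact reg_cp hL' h i j)
  have e1 : (fun i => cp S C (c * M) (c * i)) = cp S C M := funext fun i => cp_scale C hM hc i
  have e2 : (fun i => cp S Z (c * M) (c * i)) = cp S Z M := funext fun i => cp_scale Z hM hc i
  rw [e1, e2, crossSum_cp S C Z hM] at key
  rw [key]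
  exact crossSum_cp S C Z hcM v'

end Pool.Agent.J4H87.DG
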