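import Pool.Agent.Helper683.Lk.Defs

set_option autoImplicit false

/-!
# Directed graphs in three-space: definitions

`R3` is Euclidean three-space (`EuclideanSpace ℝ (Fin 3)`).
-/

namespace Pool.Agent.J4H87.DG

open Set
open Pool.Agent.Helper683.Lk (R3)

/-- A finite directed graph: the edge `e` is oriented from `src e` to `tgt e`.  Parallel and opposite edges are allowed, loops are not. -/
structure DiGraph where
  V : Type
  E : Type
  finite_V : Finite V
  finite_E : Finite E
  src : E → V
  tgt : E → V
  loopless : ∀ e, src e ≠ tgt e

/-- A spatial embedding: distinct points for the vertices and, for every edge, an arc (no tameness is assumed) between the points of its ends, which does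
not contain the points of other vertices; two different arcs meet only in common ends. -/
structure SpatialEmbedding (D : DiGraph) where
  pos : D.V → R3
  pos_injective : Function.Injective pos
  arc : ∀ e : D.E, Path (pos (D.src e)) (pos (D.tgt e))
  arc_injective : ∀ e, Function.Injective (arc e)
  arc_vertex : ∀ e v t, arc e t = pos v → v = D.src e ∨ v = D.tgt e
  arc_disjoint : ∀ e e', e ≠ e' → ∀ t u, arc e t = arc e' u →
    ∃ v, (v = D.src e ∨ v = D.tgt e) ∧ (v = D.src e' ∨ v = D.tgt e') ∧ arc e t = pos v

/-- A consistently oriented cycle with `len + 1` edges (`i + 1` is taken modulo `len + 1`) and distinct vertices. -/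
structure DiCycle (D : DiGraph) where
  len : ℕ
  edge : Fin (len + 1) → D.E
  next : ∀ i, D.tgt (edge i) = D.src (edge (i + 1))
  inj : Function.Injective fun i => D.src (edge i)

/-- The image of a cycle: the union of the arcs of its edges. -/
def SpatialEmbedding.image {D : DiGraph} (S : SpatialEmbedding D) (C : DiCycle D) : Set R3 :=
  ⋃ i, range (S.arc (C.edge i))

/-- The cycles have no vertex in common. -/
def VertexDisjoint {D : DiGraph} (C C' : DiCycle D) : Prop :=
  ∀ i j, D.src (C.edge i) ≠ D.src (C'.edge j)

/-- No embedded 2-sphere in the complement has points of the sets `L i` on different sides (in different components of the complement of the sphere).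
Every continuous injective image of the sphere is considered, tame or not. -/
def Nonsplit {n : ℕ} (L : Fin n → Set R3) : Prop :=
  ∀ f : Metric.sphere (0 : R3) 1 → R3, Continuous f → Function.Injective f → (∀ i, Disjoint (L i) (range f)) →
    ∀ i j, ∀ x ∈ L i, ∀ y ∈ L j, y ∈ connectedComponentIn (range f)ᶜ x

/-- `D` is intrinsically `n`-linked. -/
def IntrinsicallyLinked (n : ℕ) (D : DiGraph) : Prop :=
  ∀ S : SpatialEmbedding D, ∃ C : Fin n → DiCycle D, (∀ i j, i ≠ j → VertexDisjoint (C i) (C j)) ∧
    Nonsplit fun i => S.image (C i)

/-- The symmetric complete digraph on `N` vertices: one edge in each direction between any two vertices. -/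
def sym (N : ℕ) : DiGraph where
  V := Fin N
  E := {p : Fin N × Fin N // p.1 ≠ p.2}
  finite_V := inferInstance
  finite_E := inferInstance
  src p := p.1.1
  tgt p := p.1.2
  loopless p := p.2

end Pool.Agent.J4H87.DG
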