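import Pool.Agent.J4H87.DG.Def
import Pool.Agent.Helper683.Lk.Inv
import Pool.Agent.Helper683.Lk.K6P

set_option autoImplicit false

namespace Pool.Agent.J4H87.DG

open Set Filter Topology
open Pool.Agent.Helper683.Lk

variable {N : ℕ} (S : SpatialEmbedding (sym N))

/-- the edge from `a` to `b` -/
def ed {a b : Fin N} (h : a ≠ b) : (sym N).E := (⟨(a, b), h⟩ : {p : Fin N × Fin N // p.1 ≠ p.2})

/-- the arc from `a` to `b`, extended to the line -/
noncomputable def ext (a b : Fin N) : ℝ → R3 :=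
  if h : a ≠ b then (S.arc (ed h)).extend else fun _ => S.pos a

theorem ext_eq {a b : Fin N} (h : a ≠ b) : ext S a b = (S.arc (ed h)).extend := by
  unfold ext; rw [dif_pos h]

theorem ext_zero {a b : Fin N} (h : a ≠ b) : ext S a b 0 = S.pos a := by
  rw [ext_eq S h]; exact (S.arc (ed h)).extend_zero

theorem ext_one {a b : Fin N} (h : a ≠ b) : ext S a b 1 = S.pos b := by
  rw [ext_eq S h]; exact (S.arc (ed h)).extend_one

theorem ext_mem {a b : Fin N} (h : a ≠ b) (s : ℝ) : ext S a b s ∈ range (S.arc (ed h)) := by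
  rw [ext_eq S h]; exact ⟨projIcc 0 1 zero_le_one s, rfl⟩

/-- four different vertices -/
def Sep4 (a b c d : Fin N) : Prop := a ≠ b ∧ c ≠ d ∧ a ≠ c ∧ a ≠ d ∧ b ≠ c ∧ b ≠ d

theorem range_disj {a b c d : Fin N} (h1 : a ≠ b) (h2 : c ≠ d) (h3 : a ≠ c) (h4 : a ≠ d) (h5 : b ≠ c) (h6 : b ≠ d) :
    Disjoint (range (S.arc (ed h1))) (range (S.arc (ed h2))) := by
  rw [Set.disjoint_left]
  rintro x ⟨t, rfl⟩ ⟨u, hu⟩
  have hne : ed h1 ≠ ed h2 := by
    intro h
    have := congrArg (fun e : (sym N).E => (sym N).src e) h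
    exact h3 this
  obtain ⟨v, hv1, hv2, _⟩ := S.arc_disjoint _ _ hne t u hu.symm
  have e1 : (sym N).src (ed h1) = a := rfl
  have e2 : (sym N).tgt (ed h1) = b := rfl
  have e3 : (sym N).src (ed h2) = c := rfl
  have e4 : (sym N).tgt (ed h2) = d := rfl
  rw [e1, e2] at hv1
  rw [e3, e4] at hv2
  rcases hv1 with rfl | rfl <;> rcases hv2 with h | h
  · exact h3 h
  · exact h4 h
  · exact h5 h
  · exact h6 h

theorem far_one {a b c d : Fin N} (h : Sep4 a b c d) :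
    ∃ δ : ℝ, 0 < δ ∧ ∀ s t, δ ≤ dist (ext S a b s) (ext S c d t) := by
  obtain ⟨h1, h2, h3, h4, h5, h6⟩ := h
  have hd := range_disj S h1 h2 h3 h4 h5 h6
  have c1 : IsCompact (range (S.arc (ed h1))) := isCompact_range (S.arc (ed h1)).continuous
  have c2 : IsCompact (range (S.arc (ed h2))) := isCompact_range (S.arc (ed h2)).continuous
  have hne : (range (S.arc (ed h1)) ×ˢ range (S.arc (ed h2))).Nonempty :=
    ⟨(ext S a b 0, ext S c d 0), ext_mem S h1 0, ext_mem S h2 0⟩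
  obtain ⟨z, hz, hmin⟩ := (c1.prod c2).exists_isMinOn hne
    (f := fun z : R3 × R3 => dist z.1 z.2) (continuous_dist.continuousOn)
  rw [isMinOn_iff] at hmin
  refine ⟨dist z.1 z.2, dist_pos.2 fun hpq => Set.disjoint_left.1 hd hz.1 (hpq ▸ hz.2), fun s t => ?_⟩
  exact hmin (ext S a b s, ext S c d t) ⟨ext_mem S h1 s, ext_mem S h2 t⟩

theorem far_all : ∃ ρ : ℝ, 0 < ρ ∧ ∀ a b c d : Fin N, Sep4 a b c d → ∀ s t, 2 * ρ ≤ dist (ext S a b s) (ext S c d t) := by
  have h1 : ∀ a b c d : Fin N, ∃ δ : ℝ, 0 < δ ∧ (Sep4 a b c d → ∀ s t, δ ≤ dist (ext S a b s) (ext S c d t)) := by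
    intro a b c d
    by_cases h : Sep4 a b c d
    · obtain ⟨δ, h0, hδ⟩ := far_one S h
      exact ⟨δ, h0, fun _ => hδ⟩
    · exact ⟨1, one_pos, fun h' => absurd h' h⟩
  choose δ hδ0 hδ using h1
  have h2 : ∀ᶠ ρ : ℝ in 𝓝[>] 0, ∀ a b c d : Fin N, 2 * ρ ≤ δ a b c d := by
    simp only [Filter.eventually_all]
    intro a b c d
    have h3 : Tendsto (fun r : ℝ => 2 * r) (𝓝[>] 0) (𝓝 (2 * 0)) :=
      ((continuous_const.mul continuous_id).tendsto 0).mono_left nhdsWithin_le_nhds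
    rw [mul_zero] at h3
    exact (h3.eventually (gt_mem_nhds (hδ0 a b c d))).mono fun r hr => hr.le
  obtain ⟨ρ, hρ, h0⟩ := (h2.and eventually_mem_nhdsWithin).exists
  exact ⟨ρ, h0, fun a b c d h s t => (hρ a b c d).trans (hδ a b c d h s t)⟩

theorem ext_unif (a b : Fin N) : UniformContinuous (ext S a b) := by
  by_cases h : a = b
  · unfold ext
    rw [dif_neg (not_not.2 h)]
    exact uniformContinuous_const
  · rw [ext_eq S h]
    have h1 : UniformContinuous (S.arc (ed h)) := CompactSpace.uniformContinuous_of_continuous (S.arc (ed h)).continuous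
    exact h1.comp (LipschitzWith.projIcc zero_le_one).uniformContinuous

theorem mod_all {ρ : ℝ} (hρ : 0 < ρ) : ∃ M0 : ℕ, 0 < M0 ∧ ∀ a b : Fin N, ∀ s t : ℝ, |s - t| ≤ 1 / M0 →
    dist (ext S a b s) (ext S a b t) < ρ := by
  have h1 : ∀ a b : Fin N, ∀ᶠ r : ℝ in 𝓝[>] 0, ∀ s t : ℝ, |s - t| ≤ r → dist (ext S a b s) (ext S a b t) < ρ := by
    intro a b
    obtain ⟨δ, hδ, h⟩ := Metric.uniformContinuous_iff.1 (ext_unif S a b) ρ hρ
    filter_upwards [Ioo_mem_nhdsGT hδ] with r hr s t hst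
    exact h (lt_of_le_of_lt (by rw [Real.dist_eq]; exact hst) hr.2)
  have h2 : ∀ᶠ r : ℝ in 𝓝[>] 0, ∀ a b : Fin N, ∀ s t : ℝ, |s - t| ≤ r → dist (ext S a b s) (ext S a b t) < ρ := by
    simp only [Filter.eventually_all] at *
    exact h1
  obtain ⟨r, hr, h0⟩ := (h2.and eventually_mem_nhdsWithin).exists
  have h0' : (0 : ℝ) < r := h0
  obtain ⟨n, hn⟩ := exists_nat_one_div_lt h0'
  refine ⟨n + 1, Nat.succ_pos n, fun a b s t hst => hr a b s t (hst.trans ?_)⟩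
  push_cast
  exact hn.le

/-- the polygon with `M` edges inscribed in the arc from `a` to `b` -/
noncomputable def pg (M : ℕ) (a b : Fin N) (i : ℕ) : R3 := ext S a b ((i : ℝ) / M)

theorem pg_zero {a b : Fin N} (h : a ≠ b) (M : ℕ) : pg S M a b 0 = S.pos a := by
  unfold pg; rw [Nat.cast_zero, zero_div, ext_zero S h]

theorem pg_last {a b : Fin N} (h : a ≠ b) {M : ℕ} (hM : 0 < M) : pg S M a b M = S.pos b := by
  unfold pg; rw [div_self (by positivity), ext_one S h]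

/-- all that is needed at one level of approximation -/
structure Lev (ρ : ℝ) (M : ℕ) (v : R3) : Prop where
  hρ : 0 < ρ
  hM : 0 < M
  hv : v ≠ 0
  far : ∀ a b c d : Fin N, Sep4 a b c d → ∀ s t, 2 * ρ ≤ dist (ext S a b s) (ext S c d t)
  mod : ∀ a b : Fin N, ∀ s t : ℝ, |s - t| ≤ 1 / M → dist (ext S a b s) (ext S a b t) < ρ
  reg : ∀ a b c d : Fin N, Sep4 a b c d → ∀ i < M, ∀ j < M,
    RegPair v (pg S M a b i) (pg S M a b (i + 1)) (pg S M c d j) (pg S M c d (j + 1))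

variable {S}

theorem step_le {M : ℕ} (hM : 0 < M) (i : ℕ) : |((i + 1 : ℕ) : ℝ) / M - (i : ℝ) / M| ≤ 1 / M := by
  have hM' : (0 : ℝ) < M := by exact_mod_cast hM
  rw [← sub_div]
  push_cast
  rw [add_sub_cancel_left, abs_of_pos (by positivity)]

theorem seg_dis {ρ : ℝ} {M : ℕ} (hM : 0 < M)
    (far : ∀ a b c d : Fin N, Sep4 a b c d → ∀ s t, 2 * ρ ≤ dist (ext S a b s) (ext S c d t))
    (mod : ∀ a b : Fin N, ∀ s t : ℝ, |s - t| ≤ 1 / M → dist (ext S a b s) (ext S a b t) < ρ)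
    {a b c d : Fin N} (h : Sep4 a b c d) (i j : ℕ) :
    Disjoint (segment ℝ (pg S M a b i) (pg S M a b (i + 1))) (segment ℝ (pg S M c d j) (pg S M c d (j + 1))) :=
  seg_disjoint (mod a b _ _ (step_le hM i)) (mod c d _ _ (step_le hM j)) (far a b c d h _ _)

theorem exists_lev (S : SpatialEmbedding (sym N)) {ρ : ℝ} (hρ : 0 < ρ)
    (far : ∀ a b c d : Fin N, Sep4 a b c d → ∀ s t, 2 * ρ ≤ dist (ext S a b s) (ext S c d t))
    {M : ℕ} (hM : 0 < M)
    (mod : ∀ a b : Fin N, ∀ s t : ℝ, |s - t| ≤ 1 / M → dist (ext S a b s) (ext S a b t) < ρ) :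
    ∃ v, Lev S ρ M v := by
  classical
  obtain ⟨v, hv, hreg⟩ := exists_dir
    (((Finset.univ : Finset (Fin N × Fin N × Fin N × Fin N)).filter fun q => Sep4 q.1 q.2.1 q.2.2.1 q.2.2.2) ×ˢ
      (Finset.range M ×ˢ Finset.range M))
    (fun t => pg S M t.1.1 t.1.2.1 t.2.1) (fun t => pg S M t.1.1 t.1.2.1 (t.2.1 + 1))
    (fun t => pg S M t.1.2.2.1 t.1.2.2.2 t.2.2) (fun t => pg S M t.1.2.2.1 t.1.2.2.2 (t.2.2 + 1)) (by
      rintro ⟨⟨a, b, c, d⟩, i, j⟩ ht
      simp only [Finset.mem_product, Finset.mem_filter, Finset.mem_univ, true_and, Finset.mem_range] at ht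
      exact seg_dis hM far mod ht.1 i j)
  refine ⟨v, hρ, hM, hv, far, mod, ?_⟩
  intro a b c d h i hi j hj
  exact hreg ((a, b, c, d), i, j) (by
    simp only [Finset.mem_product, Finset.mem_filter, Finset.mem_univ, true_and, Finset.mem_range]
    exact ⟨h, hi, hj⟩)

/-- the crossing sum of two arcs -/
noncomputable def XX (S : SpatialEmbedding (sym N)) (M : ℕ) (v : R3) (a b c d : Fin N) : ℤ :=
  crossSum v M (pg S M a b) M (pg S M c d)

theorem k6_lev {ρ : ℝ} {M : ℕ} {v : R3} (hL : Lev S ρ M v) (x : Fin 6 → Fin N) (hx : Function.Injective x) :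
    ten (fun a b y z => ((XX S M v (x a) (x b) (x y) (x z) : ℤ) : ZMod 2)) = 1 := by
  have hs : ∀ a b y z : Fin 6, a < b → y < z → a ≠ y → a ≠ z → b ≠ y → b ≠ z → Sep4 (x a) (x b) (x y) (x z) :=
    fun a b y z h1 h2 h3 h4 h5 h6 => ⟨hx.ne h1.ne, hx.ne h2.ne, hx.ne h3, hx.ne h4, hx.ne h5, hx.ne h6⟩
  exact k6_poly (fun a => S.pos (x a)) (fun a b => pg S M (x a) (x b)) M hL.hM
    (fun a b h => pg_zero S (hx.ne h.ne) M) (fun a b h => pg_last S (hx.ne h.ne) hL.hM) v hL.hv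
    (fun a b y z h1 h2 h3 h4 h5 h6 i hi j hj => hL.reg _ _ _ _ (hs a b y z h1 h2 h3 h4 h5 h6) i hi j hj)
    (fun a b y z h1 h2 h3 h4 h5 h6 i hi j hj => seg_dis hL.hM hL.far hL.mod (hs a b y z h1 h2 h3 h4 h5 h6) i j)

end Pool.Agent.J4H87.DG
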