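import Pool.Agent.J4H87.DG.Sep
import Pool.Agent.J4H87.DG.Comb
import Pool.Agent.J4H98.DG.Topo
import Pool.Agent.J4H98.DG.Fac
import Pool.Agent.J4H57.DG.Crs
import Pool.Agent.J4H30.DG.Free

set_option autoImplicit false

namespace Pool.Agent.J4H87.DG

open Set
open Pool.Agent.Helper683.Lk hiding I

theorem image_nonempty {N : ℕ} (S : SpatialEmbedding (sym N)) (C : DiCycle (sym N)) : (S.image C).Nonempty :=
  ⟨_, cp_mem S C 1 0⟩

theorem main (n N : ℕ) (hN : 30 + 4536 * n < N) : IntrinsicallyLinked n (sym N) := by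
  intro S
  rcases n with _ | m
  · exact ⟨fun i => i.elim0, fun i => i.elim0, fun f _ _ _ i => i.elim0⟩
  obtain ⟨ρ, hρ, hfar⟩ := far_all S
  obtain ⟨M, hM, hmod⟩ := mod_all S hρ
  obtain ⟨v, hL⟩ := exists_lev S hρ hfar hM hmod
  obtain ⟨C, Z, hCZ, hZZ, hne⟩ := star Pool.Agent.J4H30.DG.t_FREE hL (n := m) (by omega)
  refine ⟨Fin.cons C Z, ?_, ?_⟩
  · intro i j
    refine Fin.cases ?_ (fun i => ?_) i <;> refine Fin.cases ?_ (fun j => ?_) j
    · intro h; exact absurd rfl h
    · intro _; exact hCZ j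
    · intro _ k l h; exact hCZ i l k h.symm
    · intro h; exact hZZ i j fun e => h (by rw [e])
  · intro f hf hfi hd
    obtain ⟨c, hc⟩ := image_nonempty S C
    have hC : Disjoint (S.image C) (range f) := hd 0
    have hZ : ∀ k, Disjoint (S.image (Z k)) (range f) := fun k => hd k.succ
    have key : ∀ i : Fin (m + 1), ∀ x ∈ S.image ((Fin.cons C Z : Fin (m + 1) → DiCycle (sym N)) i),
        x ∈ connectedComponentIn (range f)ᶜ c := by
      intro i
      refine Fin.cases ?_ (fun k => ?_) i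
      · intro x hx
        exact (image_conn S C).subset_connectedComponentIn hc
          (fun z hz hzK => Set.disjoint_left.1 hC hz hzK) hx
      · intro x hx
        exact sep_thm Pool.Agent.J4H98.DG.t_TOPO Pool.Agent.J4H57.DG.t_CRS Pool.Agent.J4H98.DG.F.t_FAC hL (hCZ k) (hne k)
          f hf hfi hC (hZ k) hc hx
    intro i j x hx y hy
    rw [← connectedComponentIn_eq (key i x hx)]
    exact key j y hy

end Pool.Agent.J4H87.DG
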