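import Pool.Agent.J4H87.DG.Stm
import Pool.Agent.Helper683.Lk.Cross

set_option autoImplicit false

namespace Pool.Agent.J4H87.DG

open Set Filter Topology Complex
open Pool.Agent.Helper683.Lk hiding I

theorem const_of_int {g : ℝ → ℝ} (hg : ContinuousOn g (Icc 0 1)) (h : ∀ t ∈ Icc (0 : ℝ) 1, ∃ k : ℤ, g t = 2 * Real.pi * k) :
    g 0 = g 1 := by
  have hπ := Real.pi_pos
  have key : ∀ y : ℝ, y ∈ g '' Icc 0 1 → ∃ k : ℤ, y = 2 * Real.pi * k := by
    rintro y ⟨t, ht, rfl⟩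
    exact h t ht
  have hc : IsPreconnected (g '' Icc 0 1) := isPreconnected_Icc.image g hg
  have m0 : g 0 ∈ g '' Icc 0 1 := ⟨0, ⟨le_rfl, zero_le_one⟩, rfl⟩
  have m1 : g 1 ∈ g '' Icc 0 1 := ⟨1, ⟨zero_le_one, le_rfl⟩, rfl⟩
  have hgen : ∀ a b : ℝ, a ∈ g '' Icc 0 1 → b ∈ g '' Icc 0 1 → ¬ a < b := by
    intro a b ha hb hab
    obtain ⟨k, hk⟩ := key a ha
    have hy : min b (a + Real.pi) ∈ g '' Icc 0 1 :=
      hc.ordConnected.out ha hb ⟨le_min hab.le (by linarith), min_le_left _ _⟩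
    obtain ⟨l, hl⟩ := key _ hy
    have h1 : a < min b (a + Real.pi) := lt_min hab (by linarith)
    have h2 : min b (a + Real.pi) ≤ a + Real.pi := min_le_right _ _
    rw [hl, hk] at h1
    rw [hl, hk] at h2
    have h3 : (k : ℝ) < l := by
      by_contra hh
      push Not at hh
      nlinarith
    have h4 : (k : ℤ) + 1 ≤ l := by exact_mod_cast h3
    have h5 : (k : ℝ) + 1 ≤ l := by exact_mod_cast h4
    nlinarith
  rcases lt_trichotomy (g 0) (g 1) with h' | h' | h'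
  · exact absurd h' (hgen _ _ m0 m1)
  · exact h'
  · exact absurd h' (hgen _ _ m1 m0)

/-- the increments along one edge -/
theorem edge_inc (hCRS : S_CRS) {v c d : R3} (hv : v ≠ 0) (m : ℕ) (p : ℕ → R3) (Θ K : R3 → ℂ) (hK : Continuous K)
    (hKΘ : ∀ x ∈ segment ℝ c d, exp (K x) = Θ x)
    (hfac : ∀ x : R3, (∀ i < m, ∀ h : ℝ, p i ≠ x + h • v) →
      ∃ r : ℝ, 0 < r ∧ ∏ i ∈ Finset.range m, FF v (p i) (p (i + 1)) x = (r : ℂ) * Θ x)
    (hreg : ∀ i < m, RegPair v c d (p i) (p (i + 1)))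
    (hdis : ∀ i < m, Disjoint (segment ℝ c d) (segment ℝ (p i) (p (i + 1)))) :
    ∑ i ∈ Finset.range m, (arg (FF v (p i) (p (i + 1)) d) + 2 * Real.pi * (crossSign v c d (p i) (p (i + 1)) : ℝ)) - (K d).im =
      ∑ i ∈ Finset.range m, arg (FF v (p i) (p (i + 1)) c) - (K c).im := by
  have h1 : ∀ i, i < m → ∃ θ : ℝ → ℝ, ContinuousOn θ (Icc 0 1) ∧
    (∀ t ∈ Icc (0 : ℝ) 1, FF v (p i) (p (i + 1)) (c + t • (d - c)) ≠ 0 ∧
      FF v (p i) (p (i + 1)) (c + t • (d - c)) = (‖FF v (p i) (p (i + 1)) (c + t • (d - c))‖ : ℂ) * exp (θ t * I)) ∧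
    θ 0 = arg (FF v (p i) (p (i + 1)) c) ∧
    θ 1 = arg (FF v (p i) (p (i + 1)) d) + 2 * Real.pi * (crossSign v c d (p i) (p (i + 1)) : ℝ) :=
    fun i hi => hCRS v _ _ _ _ hv (hreg i hi) (hdis i hi)
  choose! θ hθc hθ hθ0 hθ1 using h1
  have hseg : ∀ t ∈ Icc (0 : ℝ) 1, c + t • (d - c) ∈ segment ℝ c d := fun t ht => seg_mem c d ht.1 ht.2
  set g : ℝ → ℝ := fun t => ∑ i ∈ Finset.range m, θ i t - (K (c + t • (d - c))).im with hg
  have hgc : ContinuousOn g (Icc 0 1) := by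
    refine ContinuousOn.sub ?_ ?_
    · exact continuousOn_finsetSum _ fun i hi => hθc i (Finset.mem_range.1 hi)
    · have : Continuous fun t : ℝ => (K (c + t • (d - c))).im :=
        Complex.continuous_im.comp (hK.comp (by fun_prop))
      exact this.continuousOn
  have hint : ∀ t ∈ Icc (0 : ℝ) 1, ∃ k : ℤ, g t = 2 * Real.pi * k := by
    intro t ht
    set x := c + t • (d - c) with hx
    have hxs := hseg t ht
    have hlines : ∀ i < m, ∀ h : ℝ, p i ≠ x + h • v := fun i hi h => ((hreg i hi).2 x hxs h).1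
    obtain ⟨r, hr, hprod⟩ := hfac x hlines
    have e1 : ∏ i ∈ Finset.range m, FF v (p i) (p (i + 1)) x =
        ((∏ i ∈ Finset.range m, ‖FF v (p i) (p (i + 1)) x‖ : ℝ) : ℂ) * exp ((∑ i ∈ Finset.range m, θ i t : ℝ) * I) := by
      rw [Complex.ofReal_prod, Complex.ofReal_sum, Finset.sum_mul, Complex.exp_sum, ← Finset.prod_mul_distrib]
      exact Finset.prod_congr rfl fun i hi => (hθ i (Finset.mem_range.1 hi) t ht).2
    have hpos : 0 < ∏ i ∈ Finset.range m, ‖FF v (p i) (p (i + 1)) x‖ :=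
      Finset.prod_pos fun i hi => norm_pos_iff.2 (hθ i (Finset.mem_range.1 hi) t ht).1
    rw [e1, ← hKΘ x hxs] at hprod
    set Pp := ∏ i ∈ Finset.range m, ‖FF v (p i) (p (i + 1)) x‖ with hPp
    have e2 : exp ((g t : ℝ) * I) = ((r * Real.exp (K x).re / Pp : ℝ) : ℂ) := by
      have e3 : exp ((g t : ℝ) * I) = exp ((∑ i ∈ Finset.range m, θ i t : ℝ) * I) / exp (((K x).im : ℝ) * I) := by
        rw [← Complex.exp_sub]
        congr 1
        rw [hg]
        push_cast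
        ring
      have e4 : exp (K x) = (Real.exp (K x).re : ℂ) * exp (((K x).im : ℝ) * I) := by
        rw [Complex.ofReal_exp, ← Complex.exp_add]
        congr 1
        exact (Complex.re_add_im _).symm
      have hP0 : ((Pp : ℝ) : ℂ) ≠ 0 := by exact_mod_cast hpos.ne'
      rw [e3, div_eq_iff (Complex.exp_ne_zero _)]
      rw [e4] at hprod
      have e5 : exp ((∑ i ∈ Finset.range m, θ i t : ℝ) * I) =
          ((r : ℝ) : ℂ) * ((Real.exp (K x).re : ℂ) * exp (((K x).im : ℝ) * I)) / ((Pp : ℝ) : ℂ) := by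
        rw [← hprod, mul_div_cancel_left₀ _ hP0]
      rw [e5]
      push_cast
      ring
    have hn : ‖exp ((g t : ℝ) * I)‖ = 1 := Complex.norm_exp_ofReal_mul_I _
    rw [e2, Complex.norm_real, Real.norm_of_nonneg (by positivity)] at hn
    rw [hn, Complex.ofReal_one, Complex.exp_eq_one_iff] at e2
    obtain ⟨k, hk⟩ := e2
    refine ⟨k, ?_⟩
    have := congrArg Complex.im hk
    simp at this
    linarith
  have h01 := const_of_int hgc hint
  have eg0 : g 0 = ∑ i ∈ Finset.range m, arg (FF v (p i) (p (i + 1)) c) - (K c).im := by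
    rw [hg]
    simp only [zero_smul, add_zero]
    congr 1
    exact Finset.sum_congr rfl fun i hi => hθ0 i (Finset.mem_range.1 hi)
  have eg1 : g 1 = ∑ i ∈ Finset.range m, (arg (FF v (p i) (p (i + 1)) d) +
      2 * Real.pi * (crossSign v c d (p i) (p (i + 1)) : ℝ)) - (K d).im := by
    rw [hg]
    simp only [one_smul, add_sub_cancel]
    congr 1
    exact Finset.sum_congr rfl fun i hi => hθ1 i (Finset.mem_range.1 hi)
  rw [← eg0, ← eg1, h01]

theorem wind (hTOPO : S_TOPO) (hCRS : S_CRS) (hFAC : S_FAC)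
    (f : Metric.sphere (0 : R3) 1 → R3) (hf : Continuous f) (hfi : Function.Injective f)
    (B U : Set R3) (hB : IsOpen B) (hU : IsOpen U) (hBU : Disjoint B U) (hBU' : B ∪ U = (range f)ᶜ)
    {v : R3} (hv : v ≠ 0) {m n : ℕ} {p q : ℕ → R3} (hp : p m = p 0) (hq : q n = q 0)
    (hreg : ∀ j < n, ∀ i < m, RegPair v (q j) (q (j + 1)) (p i) (p (i + 1)))
    (hdis : ∀ j < n, ∀ i < m, Disjoint (segment ℝ (q j) (q (j + 1))) (segment ℝ (p i) (p (i + 1))))
    (hpB : ∀ i < m, segment ℝ (p i) (p (i + 1)) ⊆ B) (hqU : ∀ j < n, segment ℝ (q j) (q (j + 1)) ⊆ U) :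
    crossSum v n q m p = 0 := by
  obtain ⟨Θ, hΘc, hΘ0, hfac⟩ := hFAC m p hp
  obtain ⟨K, hK, hKΘ⟩ := hTOPO f hf hfi B U hB hU hBU hBU' Θ hΘc
    (fun x hx => hΘ0 x fun i hi hxi => hx (hpB i hi hxi))
  have hinc : ∀ j < n, ∑ i ∈ Finset.range m, 2 * Real.pi * (crossSign v (q j) (q (j + 1)) (p i) (p (i + 1)) : ℝ) =
      ((K (q (j + 1))).im - ∑ i ∈ Finset.range m, arg (FF v (p i) (p (i + 1)) (q (j + 1)))) -
      ((K (q j)).im - ∑ i ∈ Finset.range m, arg (FF v (p i) (p (i + 1)) (q j))) := by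
    intro j hj
    have h1 := edge_inc hCRS hv m p Θ K hK (fun x hx => hKΘ x (hqU j hj hx)) (fun x hx => hfac v x hv hx)
      (hreg j hj) (hdis j hj)
    rw [Finset.sum_add_distrib] at h1
    linarith
  have hsum : ∑ j ∈ Finset.range n, ∑ i ∈ Finset.range m,
      2 * Real.pi * (crossSign v (q j) (q (j + 1)) (p i) (p (i + 1)) : ℝ) = 0 := by
    rw [Finset.sum_congr rfl fun j hj => hinc j (Finset.mem_range.1 hj),
      Finset.sum_range_sub (fun j => (K (q j)).im - ∑ i ∈ Finset.range m, arg (FF v (p i) (p (i + 1)) (q j))) n, hq, sub_self]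
  have h2 : (2 * Real.pi) * ((crossSum v n q m p : ℤ) : ℝ) = 0 := by
    unfold crossSum
    push_cast
    rw [Finset.mul_sum]
    simp only [Finset.mul_sum]
    exact hsum
  have h3 : (2 * Real.pi) ≠ 0 := by positivity
  have h4 := (mul_eq_zero.1 h2).resolve_left h3
  exact_mod_cast h4

end Pool.Agent.J4H87.DG
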