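import Pool.Agent.J4H87.DG.Cyc
import Pool.Agent.J4H87.DG.Wind

set_option autoImplicit false

namespace Pool.Agent.J4H87.DG

open Set Filter Topology
open Pool.Agent.Helper683.Lk hiding I

variable {N : ℕ} (S : SpatialEmbedding (sym N))

theorem image_compact (C : DiCycle (sym N)) : IsCompact (S.image C) := by
  unfold SpatialEmbedding.image
  exact isCompact_iUnion fun i => isCompact_range (S.arc (C.edge i)).continuous

theorem image_conn (C : DiCycle (sym N)) : IsPreconnected (S.image C) := by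
  have e : S.image C = ⋃ q : ℕ, range (S.arc (C.edge (Fin.ofNat (C.len + 1) q))) := by
    unfold SpatialEmbedding.image
    apply Set.Subset.antisymm
    · refine Set.iUnion_subset fun i => ?_
      have h1 : Fin.ofNat (C.len + 1) (i : ℕ) = i := by
        apply Fin.ext
        simp [Fin.ofNat, Nat.mod_eq_of_lt i.2]
      conv_lhs => rw [← h1]
      exact Set.subset_iUnion (fun q : ℕ => range (S.arc (C.edge (Fin.ofNat (C.len + 1) q)))) (i : ℕ)
    · exact Set.iUnion_subset fun q => Set.subset_iUnion (fun i => range (S.arc (C.edge i))) _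
  rw [e]
  refine IsPreconnected.iUnion_of_chain (fun q => isPreconnected_range (S.arc _).continuous) ?_
  intro q
  refine ⟨S.pos (tg C q), ⟨1, (S.arc _).target⟩, ⟨0, ?_⟩⟩
  rw [(S.arc _).source]
  have := tg_eq C q
  rw [this]
  rfl

theorem cp_mem (C : DiCycle (sym N)) (M i : ℕ) : cp S C M i ∈ S.image C := by
  unfold cp pg SpatialEmbedding.image
  refine Set.mem_iUnion.2 ⟨Fin.ofNat (C.len + 1) (i / M), ?_⟩
  exact ext_mem S (sc_ne_tg C _) _

variable {S}

theorem sep_thm (hTOPO : S_TOPO) (hCRS : S_CRS) (hFAC : S_FAC) {ρ : ℝ} {M : ℕ} {v : R3} (hL : Lev S ρ M v)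
    {C Z : DiCycle (sym N)} (hCZ : VertexDisjoint C Z) (hne : LD S M v C Z ≠ 0)
    (f : Metric.sphere (0 : R3) 1 → R3) (hf : Continuous f) (hfi : Function.Injective f)
    (hC : Disjoint (S.image C) (range f)) (hZ : Disjoint (S.image Z) (range f))
    {x y : R3} (hx : x ∈ S.image C) (hy : y ∈ S.image Z) : y ∈ connectedComponentIn (range f)ᶜ x := by
  by_contra hyB
  apply hne
  set K := range f with hK
  have hKc : IsClosed K := (isCompact_range hf).isClosed
  have hKo : IsOpen Kᶜ := hKc.isOpen_compl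
  have hCK : S.image C ⊆ Kᶜ := fun z hz hzK => Set.disjoint_left.1 hC hz hzK
  have hZK : S.image Z ⊆ Kᶜ := fun z hz hzK => Set.disjoint_left.1 hZ hz hzK
  set B := connectedComponentIn Kᶜ x with hBdef
  have hBo : IsOpen B := hKo.connectedComponentIn
  have hBK : B ⊆ Kᶜ := connectedComponentIn_subset _ _
  have hdisj : ∀ z ∈ Kᶜ, z ∉ B → Disjoint (connectedComponentIn Kᶜ z) B := by
    intro z hz hzB
    rw [Set.disjoint_left]
    intro w hw hwB
    apply hzB
    have e1 := connectedComponentIn_eq hw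
    have e2 := connectedComponentIn_eq hwB
    rw [hBdef, e2, ← e1]
    exact mem_connectedComponentIn hz
  set U := Kᶜ \ B with hUdef
  have hUo : IsOpen U := by
    rw [isOpen_iff_mem_nhds]
    rintro z ⟨hz, hzB⟩
    have h1 : connectedComponentIn Kᶜ z ∈ 𝓝 z := hKo.connectedComponentIn.mem_nhds (mem_connectedComponentIn hz)
    exact mem_of_superset h1 fun w hw => ⟨connectedComponentIn_subset _ _ hw, Set.disjoint_left.1 (hdisj z hz hzB) hw⟩
  have hCB : S.image C ⊆ B := (image_conn S C).subset_connectedComponentIn hx hCK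
  have hZU : S.image Z ⊆ U := by
    have h1 : S.image Z ⊆ connectedComponentIn Kᶜ y := (image_conn S Z).subset_connectedComponentIn hy hZK
    exact fun w hw => ⟨hZK hw, Set.disjoint_left.1 (hdisj y (hZK hy) hyB) (h1 hw)⟩
  obtain ⟨r1, hr1, ht1⟩ := (image_compact S C).exists_thickening_subset_open hBo hCB
  obtain ⟨r2, hr2, ht2⟩ := (image_compact S Z).exists_thickening_subset_open hUo hZU
  obtain ⟨M0, hM0, hmod⟩ := mod_all S (lt_min hr1 hr2)
  have hM := hL.hM
  have hcM : 0 < M0 * M := Nat.mul_pos hM0 hM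
  have hM' : (0 : ℝ) < M := by exact_mod_cast hM
  have hM0' : (0 : ℝ) < M0 := by exact_mod_cast hM0
  have hM1 : (1 : ℝ) ≤ M := by exact_mod_cast hM
  have hM01 : (1 : ℝ) ≤ M0 := by exact_mod_cast hM0
  have le1 : (1 : ℝ) / ((M0 * M : ℕ) : ℝ) ≤ 1 / M := by
    apply one_div_le_one_div_of_le hM'
    push_cast
    nlinarith
  have le2 : (1 : ℝ) / ((M0 * M : ℕ) : ℝ) ≤ 1 / M0 := by
    apply one_div_le_one_div_of_le hM0'
    push_cast
    nlinarith
  obtain ⟨v', hL'⟩ := exists_lev S hL.hρ hL.far hcM (fun a b s t hst => hL.mod a b s t (hst.trans le1))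
  have hseg : ∀ (W : DiCycle (sym N)) (r : ℝ) (T : Set R3), min r1 r2 ≤ r → Metric.thickening r (S.image W) ⊆ T → ∀ i,
      segment ℝ (cp S W (M0 * M) i) (cp S W (M0 * M) (i + 1)) ⊆ T := by
    intro W r T hr hT i
    have hr0 : 0 < r := lt_of_lt_of_le (lt_min hr1 hr2) hr
    have hball : Metric.ball (cp S W (M0 * M) i) r ⊆ T := by
      refine Set.Subset.trans ?_ hT
      exact Metric.ball_subset_thickening (cp_mem S W (M0 * M) i) r
    refine Set.Subset.trans ((convex_ball _ _).segment_subset (Metric.mem_ball_self hr0) ?_) hball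
    rw [Metric.mem_ball, dist_comm, (cp_edge S W hcM i).1, (cp_edge S W hcM i).2]
    refine lt_of_lt_of_le (hmod _ _ _ _ ?_) hr
    rw [abs_sub_comm]
    exact (step_le hcM _).trans le2
  rw [inv hL hM0 hL' hCZ, ← crossSum_cp S C Z hcM]
  refine wind hTOPO hCRS hFAC f hf hfi U B hUo hBo ?_ ?_ hL'.hv (cp_last S Z hcM) (cp_last S C hcM) ?_ ?_ ?_ ?_
  · rw [Set.disjoint_left]
    exact fun w hw => hw.2
  · rw [hUdef]
    exact Set.sdiff_union_of_subset hBK
  · exact fun j _ i _ => reg_cp hL' hCZ j i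
  · exact fun j _ i _ => dis_cp hL' hCZ j i
  · exact fun i _ => hseg Z r2 U (min_le_right _ _) ht2 i
  · exact fun j _ => hseg C r1 B (min_le_left _ _) ht1 j

end Pool.Agent.J4H87.DG
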